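import Mathlib

/-!
# The class of representable demonic meet semigroups is not finitely axiomatisable

For an index set `I` with a successor function `σ` (defined on `Option I`, where `none` is the
index before the first one) and an index `N`, the structure `Alg σ N` has the elements
`A k, C k, B k, F k, T k` (`k : Option I`), `M i` (`i : I`) and `E`. The products are
`C k ∘ B k = T k`, `C (some (σ k)) ∘ F k = T k`, `A (some i) ∘ B (some i) = T none`,
`A none ∘ B none = T (some N)`; all others are `E`. The meets are `A k ⊓ C k = A k`,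
`T none ⊓ T (some i) = M i`, `M i ⊓ T none = M i ⊓ T (some i) = M i`, `x ⊓ x = x ⊓ E = x`.

If `N` is reached from `none` by iterating `σ`, then in a representation every point of the domain
of `T none` is, step by step, in the domains of all `C (some i)`, and `T none` and `T (some N)`
agree on the domain of `T none`, so that `M N = T (some N)`: there is no representation
(`not_representable`). The number of steps is unbounded. If `N` is not reached, the structure
is representable (`representable_of`). An ultraproduct of structures of the first kind is of the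
second kind (`rep_P`).
-/

set_option autoImplicit false

namespace Pool.Agent.Results.MP_ef6db9_lc.NotFinitelyAxiomatisable

open FirstOrder Filter

/-! ### Binary relations -/

section rel
variable {X : Type}

/-- The domain of a binary relation. -/
def dom (R : Set (X × X)) : Set X := {x | ∃ y, (x, y) ∈ R}

/-- The restriction of a binary relation to a set of starting points. -/
def restr (R : Set (X × X)) (A : Set X) : Set (X × X) := {p | p ∈ R ∧ p.1 ∈ A}

/-- Ordinary composition. -/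
def compo (R S : Set (X × X)) : Set (X × X) := {p | ∃ y, (p.1, y) ∈ R ∧ (y, p.2) ∈ S}

/-- The demonic meet of `R` and `S` is defined. -/
def MeetDef (R S : Set (X × X)) : Prop := dom R ∩ dom S = dom (R ∩ S)

/-- The value of the demonic meet of `R` and `S` (when it is defined). -/
def dmeet (R S : Set (X × X)) : Set (X × X) :=
  (R ∩ S) ∪ restr R (dom S)ᶜ ∪ restr S (dom R)ᶜ

end rel

/-! ### The signature -/

/-- One binary function symbol, for the composition. -/
inductive Fn : ℕ → Type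
  | comp : Fn 2

/-- One ternary relation symbol, for the graph of the partial operation `⊓`. -/
inductive Rl : ℕ → Type
  | meet : Rl 3

/-- The signature `(⊓, ;)`. -/
def L : Language := ⟨Fn, Rl⟩

section str
variable {S : Type} [L.Structure S]

/-- The binary operation of a structure. -/
def mul (a b : S) : S := Language.Structure.funMap (L := L) Fn.comp ![a, b]

/-- `Mt a b c` means `a ⊓ b = c`. -/
def Mt (a b c : S) : Prop := Language.Structure.RelMap (L := L) Rl.meet ![a, b, c]

end str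

/-- A `(⊓, ;)`-structure: `Mt` is the graph of a partial operation. -/
def IsStr (S : Type) [L.Structure S] : Prop :=
  ∀ a b c c' : S, Mt a b c → Mt a b c' → c = c'

/-- The set `𝒮` of binary relations on `X` is a proper structure: it is closed under composition,
and contains the demonic meet of any two of its elements whose demonic meet is defined. -/
def Proper {X : Type} (𝒮 : Set (Set (X × X))) : Prop :=
  (∀ R ∈ 𝒮, ∀ Q ∈ 𝒮, compo R Q ∈ 𝒮) ∧ (∀ R ∈ 𝒮, ∀ Q ∈ 𝒮, MeetDef R Q → dmeet R Q ∈ 𝒮)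

/-- Representable structures: there is an isomorphism `θ` onto a proper structure `𝒮` on some
base `X`. It maps the operation of `S` to composition, and `a ⊓ b` is defined and equal to `c` if
and only if the demonic meet of `θ a` and `θ b` is defined and equal to `θ c`. -/
def Representable (S : Type) [L.Structure S] : Prop :=
  ∃ (X : Type) (𝒮 : Set (Set (X × X))), Proper 𝒮 ∧ ∃ θ : S → Set (X × X),
    Set.BijOn θ Set.univ 𝒮 ∧
    (∀ a b, θ (mul a b) = compo (θ a) (θ b)) ∧
    (∀ a b c, Mt a b c ↔ MeetDef (θ a) (θ b) ∧ θ c = dmeet (θ a) (θ b))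

/-- The class of the representable structures is finitely axiomatisable. -/
def FinAx : Prop :=
  ∃ Ψ : Finset L.Sentence, ∀ (S : Type) [L.Structure S], IsStr S →
    ((∀ ψ ∈ Ψ, S ⊨ ψ) ↔ Representable S)

theorem representable_iff (S : Type) [L.Structure S] : Representable S ↔
    ∃ (X : Type) (θ : S → Set (X × X)), Function.Injective θ ∧
      (∀ a b, θ (mul a b) = compo (θ a) (θ b)) ∧
      (∀ a b c, Mt a b c ↔ MeetDef (θ a) (θ b) ∧ θ c = dmeet (θ a) (θ b)) ∧
      (∀ a b, MeetDef (θ a) (θ b) → ∃ c, θ c = dmeet (θ a) (θ b)) := by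
  constructor
  · rintro ⟨X, 𝒮, h𝒮, θ, hθ, h1, h2⟩
    refine ⟨X, θ, Set.injOn_univ.mp hθ.injOn, h1, h2, fun a b h => ?_⟩
    have ha := hθ.mapsTo (Set.mem_univ a)
    have hb := hθ.mapsTo (Set.mem_univ b)
    obtain ⟨c, -, hc⟩ := hθ.surjOn (h𝒮.2 _ ha _ hb h)
    exact ⟨c, hc⟩
  · rintro ⟨X, θ, hinj, h1, h2, h3⟩
    refine ⟨X, Set.range θ, ⟨?_, ?_⟩, θ, ⟨fun a _ => ⟨a, rfl⟩, hinj.injOn, ?_⟩, h1, h2⟩
    · rintro _ ⟨a, rfl⟩ _ ⟨b, rfl⟩
      exact ⟨_, h1 a b⟩
    · rintro _ ⟨a, rfl⟩ _ ⟨b, rfl⟩ h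
      exact h3 a b h
    · rintro _ ⟨a, rfl⟩
      exact ⟨a, Set.mem_univ a, rfl⟩

/-! ### The structures -/

/-- The elements. -/
inductive El (I : Type) : Type
  | A (k : Option I)
  | C (k : Option I)
  | B (k : Option I)
  | F (k : Option I)
  | T (k : Option I)
  | M (i : I)
  | E

open Classical in
/-- The composition. -/
noncomputable def mulE {I : Type} (σ : Option I → I) (N : I) : El I → El I → El I
  | .A none, .B l => if none = l then .T (some N) else .E
  | .A (some i), .B l => if some i = l then .T none else .E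
  | .C k, .B l => if k = l then .T k else .E
  | .C k, .F l => if k = some (σ l) then .T l else .E
  | _, _ => .E

/-- The graph of the partial operation. -/
def MtE {I : Type} (a b c : El I) : Prop :=
  (a = b ∧ c = a) ∨ (b = .E ∧ c = a) ∨ (a = .E ∧ c = b) ∨
  (∃ k, a = .A k ∧ b = .C k ∧ c = .A k) ∨ (∃ k, a = .C k ∧ b = .A k ∧ c = .A k) ∨
  (∃ i, a = .M i ∧ b = .T none ∧ c = .M i) ∨ (∃ i, a = .T none ∧ b = .M i ∧ c = .M i) ∨
  (∃ i, a = .M i ∧ b = .T (some i) ∧ c = .M i) ∨ (∃ i, a = .T (some i) ∧ b = .M i ∧ c = .M i) ∨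
  (∃ i, a = .T none ∧ b = .T (some i) ∧ c = .M i) ∨
  (∃ i, a = .T (some i) ∧ b = .T none ∧ c = .M i)

/-! ### Components of representations -/

/-- The nodes of depth one. -/
inductive Mid (I : Type) : Type
  | a (k : Option I)
  | c (k : Option I)
  | wb (k : Option I)
  | wf (k : Option I)

/-- The final nodes of depth one or two. -/
inductive Top (I : Type) : Type
  | zs
  | z (i : I)

/-- The nodes. -/
inductive Nd (I : Type) : Type
  | root
  | mid (m : Mid I)
  | top (t : Top I)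

section comps
variable {I : Type} (σ : Option I → I) (N : I)

/-- The relations of a component, given by the labels on the edges. -/
def rel (P1 : El I → Mid I → Prop) (P2 : El I → Top I → Prop) (Q : El I → Mid I → Top I → Prop)
    (e : El I) : Nd I → Nd I → Prop
  | .root, .mid m => P1 e m
  | .root, .top t => P2 e t
  | .mid m, .top t => Q e m t
  | _, _ => False

/-- Good components. -/
def Good (R : El I → Nd I → Nd I → Prop) : Prop :=
  (∀ a b x z, R (mulE σ N a b) x z ↔ ∃ y, R a x y ∧ R b y z) ∧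
  (∀ a b c, MtE a b c → (∀ x y y', R a x y → R b x y' → ∃ y, R a x y ∧ R b x y) ∧
    ∀ x y, R c x y ↔ (R a x y ∧ R b x y) ∨ (R a x y ∧ ∀ w, ¬ R b x w) ∨
      (R b x y ∧ ∀ w, ¬ R a x w))

/-- the demonic meet of `a` and `b` is `c` in the component -/
def OkMeet (R : El I → Nd I → Nd I → Prop) (a b c : El I) : Prop :=
  (∀ x y y', R a x y → R b x y' → ∃ y, R a x y ∧ R b x y) ∧
    ∀ x y, R c x y ↔ (R a x y ∧ R b x y) ∨ (R a x y ∧ ∀ w, ¬ R b x w) ∨
      (R b x y ∧ ∀ w, ¬ R a x w)

theorem OkMeet.symm {R : El I → Nd I → Nd I → Prop} {a b c : El I} (h : OkMeet R a b c) :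
    OkMeet R b a c := by
  refine ⟨fun x y y' h1 h2 => ?_, fun x y => ?_⟩
  · obtain ⟨w, hw⟩ := h.1 x y' y h2 h1
    exact ⟨w, hw.2, hw.1⟩
  · rw [h.2 x y]
    tauto

/-- demonic refinement -/
theorem OkMeet.of_le {R : El I → Nd I → Nd I → Prop} {a b : El I}
    (h1 : ∀ x y y', R a x y → R b x y' → R b x y) (h2 : ∀ x y, R b x y → ∃ y', R a x y') :
    OkMeet R a b a := by
  refine ⟨fun x y y' h h' => ⟨y, h, h1 x y y' h h'⟩, fun x y => ⟨fun h => ?_, ?_⟩⟩
  · by_cases hb : ∃ w, R b x w
    · obtain ⟨w, hw⟩ := hb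
      exact Or.inl ⟨h, h1 x y w h hw⟩
    · exact Or.inr (Or.inl ⟨h, fun w hw => hb ⟨w, hw⟩⟩)
  · rintro (⟨h, -⟩ | ⟨h, -⟩ | ⟨h, h'⟩)
    · exact h
    · exact h
    · obtain ⟨w, hw⟩ := h2 x y h
      exact absurd hw (h' w)

theorem good_of (R : El I → Nd I → Nd I → Prop)
    (hc : ∀ a b x z, R (mulE σ N a b) x z ↔ ∃ y, R a x y ∧ R b y z)
    (hE : ∀ x y, ¬ R .E x y) (hAC : ∀ k, OkMeet R (.A k) (.C k) (.A k))
    (hM0 : ∀ i, OkMeet R (.M i) (.T none) (.M i))
    (hM : ∀ i, OkMeet R (.M i) (.T (some i)) (.M i))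
    (hT : ∀ i, OkMeet R (.T none) (.T (some i)) (.M i)) : Good σ N R := by
  refine ⟨hc, fun a b c h => ?_⟩
  have hle : ∀ a, OkMeet R a .E a := fun a =>
    OkMeet.of_le (fun x y y' _ h => absurd h (hE _ _)) (fun x y h => absurd h (hE _ _))
  have hrefl : ∀ a, OkMeet R a a a := fun a =>
    OkMeet.of_le (fun x y y' h _ => h) (fun x y h => ⟨y, h⟩)
  rcases h with ⟨rfl, rfl⟩ | ⟨rfl, rfl⟩ | ⟨rfl, rfl⟩ | ⟨k, rfl, rfl, rfl⟩ | ⟨k, rfl, rfl, rfl⟩ |
    ⟨k, rfl, rfl, rfl⟩ | ⟨k, rfl, rfl, rfl⟩ | ⟨k, rfl, rfl, rfl⟩ | ⟨k, rfl, rfl, rfl⟩ |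
    ⟨k, rfl, rfl, rfl⟩ | ⟨k, rfl, rfl, rfl⟩
  · exact hrefl _
  · exact hle _
  · exact (hle _).symm
  · exact hAC _
  · exact (hAC _).symm
  · exact hM0 _
  · exact (hM0 _).symm
  · exact hM _
  · exact (hM _).symm
  · exact hT _
  · exact (hT _).symm

/-- membership of an index -/
def inJ (J : Set I) : Option I → Prop
  | none => True
  | some i => i ∈ J

def K1 (J : Set I) : El I → Mid I → Prop
  | .A k, m => m = .a k
  | .C k, m => (m = .a k ∨ m = .c k) ∧ inJ J k
  | .B k, m => m = .wb k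
  | .F k, m => m = .wf k
  | _, _ => False

def TP (J : Set I) (k : Option I) (t : Top I) : Prop :=
  (t = .zs ∧ inJ J k) ∨ ∃ i, k = some i ∧ t = .z i ∧ i ∈ J ∧ i ≠ N

def K2 (J : Set I) : El I → Top I → Prop
  | .T k, t => TP N J k t
  | .M _, t => t = .zs
  | _, _ => False

def KQ (J : Set I) : El I → Mid I → Top I → Prop
  | .B k, m, t => (m = .a k ∧ t = .zs ∧ (k = none → N ∈ J)) ∨
      (m = .c k ∧ ((k = none ∧ t = .zs) ∨ ∃ i, k = some i ∧ t = .z i ∧ i ∈ J ∧ i ≠ N))
  | .F k, m, t => m = .c (some (σ k)) ∧ TP N J k t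
  | _, _, _ => False

def L1 : El I → Mid I → Prop
  | .A k, m => m = .a k
  | .C k, m => (m = .a k ∨ m = .c k) ∧ k ≠ none
  | _, _ => False

def L2 : El I → Top I → Prop
  | .T k, t => ∃ i, k = some i ∧ t = .z i
  | .M i, t => t = .z i
  | _, _ => False

def LQ : El I → Mid I → Top I → Prop
  | .B k, m, t => (k = none ∧ m = .a none ∧ t = .z N) ∨ (∃ i, k = some i ∧ m = .c k ∧ t = .z i)
  | .F k, m, t => ∃ i, k = some i ∧ m = .c (some (σ k)) ∧ t = .z i
  | _, _, _ => False

theorem comp_of (P1 : El I → Mid I → Prop) (P2 : El I → Top I → Prop)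
    (Q : El I → Mid I → Top I → Prop)
    (h1 : ∀ a b m, ¬ P1 (mulE σ N a b) m) (h3 : ∀ a b m t, ¬ Q (mulE σ N a b) m t)
    (h2 : ∀ a b t, P2 (mulE σ N a b) t ↔ ∃ m, P1 a m ∧ Q b m t) :
    ∀ a b x z, rel P1 P2 Q (mulE σ N a b) x z ↔ ∃ y, rel P1 P2 Q a x y ∧ rel P1 P2 Q b y z := by
  intro a b x z
  cases x with
  | root =>
    cases z with
    | root => 
      constructor
      · intro h; exact h.elim
      · rintro ⟨y, h, h'⟩; cases y <;> exact h'.elim
    | mid m =>
      constructor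
      · intro h; exact (h1 _ _ _ h).elim
      · rintro ⟨y, h, h'⟩
        cases y
        · exact h.elim
        · exact h'.elim
        · exact h'.elim
    | top t =>
      constructor
      · intro h
        obtain ⟨m, hm, hm'⟩ := (h2 _ _ _).mp h
        exact ⟨.mid m, hm, hm'⟩
      · rintro ⟨y, h, h'⟩
        cases y
        · exact h.elim
        · exact (h2 _ _ _).mpr ⟨_, h, h'⟩
        · exact h'.elim
  | mid m =>
    constructor
    · intro h
      cases z
      · exact h.elim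
      · exact h.elim
      · exact (h3 _ _ _ _ h).elim
    · rintro ⟨y, h, h'⟩
      cases y
      · exact h.elim
      · exact h.elim
      · cases z <;> exact h'.elim
  | top t =>
    constructor
    · intro h; cases z <;> exact h.elim
    · rintro ⟨y, h, h'⟩; cases y <;> exact h.elim

theorem mul_cases (a b : El I) : mulE σ N a b = .E ∨ ∃ k, mulE σ N a b = .T k := by
  classical
  rcases a with (_|k)|k|k|k|k|k|_ <;> rcases b with k'|k'|k'|k'|k'|k'|_ <;>
    simp only [mulE, true_or]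
  · split_ifs
    · exact Or.inr ⟨_, rfl⟩
    · exact Or.inl rfl
  · split_ifs
    · exact Or.inr ⟨_, rfl⟩
    · exact Or.inl rfl
  · split_ifs
    · exact Or.inr ⟨_, rfl⟩
    · exact Or.inl rfl
  · split_ifs
    · exact Or.inr ⟨_, rfl⟩
    · exact Or.inl rfl

theorem good_K (J : Set I) (h0 : σ none ∈ J) (hs : ∀ i ∈ J, σ (some i) ∈ J) : Good σ N (rel (K1 J) (K2 N J) (KQ σ N J)) := by
  classical
  have hcl : ∀ k, inJ J k → inJ J (some (σ k)) := by
    rintro (_|i) h
    · exact h0
    · exact hs i h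
  have hTP : ∀ k t, TP N J k t → inJ J k := by
    rintro k t (⟨-, h⟩ | ⟨i, rfl, -, h, -⟩)
    · exact h
    · exact h
  apply good_of
  · apply comp_of
    · intro a b m h
      rcases mul_cases σ N a b with h' | ⟨k, h'⟩ <;> rw [h'] at h <;> exact h
    · intro a b m t h
      rcases mul_cases σ N a b with h' | ⟨k, h'⟩ <;> rw [h'] at h <;> exact h
    · intro a b t
      rcases a with (_|k)|k|k|k|k|k|_ <;> rcases b with k'|k'|k'|k'|k'|k'|_ <;>
        simp only [mulE, K1, K2, KQ, false_and, and_false, exists_false, exists_eq_left] 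
      · by_cases h : none = k'
        · subst h
          simp [TP, inJ]
        · simp [h]
      · simp
      · by_cases h : some k = k'
        · subst h
          simp [TP, inJ]
        · simp [h]
      · simp
      · by_cases h : k = k'
        · subst h
          rcases k with _ | k
          · simp [TP, inJ]
            exact fun h _ => h
          · simp only [↓reduceIte, TP, inJ, Option.some.injEq, exists_eq_left', reduceCtorEq,
              false_implies, and_true, false_and, false_or]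
            constructor
            · rintro (⟨h1, h2⟩ | ⟨h1, h2, h3⟩)
              · exact ⟨_, ⟨Or.inl rfl, h2⟩, Or.inl ⟨rfl, h1⟩⟩
              · exact ⟨_, ⟨Or.inr rfl, h2⟩, Or.inr ⟨rfl, h1, h2, h3⟩⟩
            · rintro ⟨m, ⟨-, h2⟩, ⟨rfl, h1⟩ | ⟨rfl, h1⟩⟩
              · exact Or.inl ⟨h1, h2⟩
              · exact Or.inr h1
        · simp [h]
      · by_cases h : k = some (σ k')
        · subst h
          simp only [↓reduceIte]
          constructor
          · intro h
            exact ⟨_, ⟨Or.inr rfl, hcl _ (hTP _ _ h)⟩, rfl, h⟩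
          · rintro ⟨m, -, -, h⟩
            exact h
        · simp [h]
          exact fun h1 => absurd h1.symm h
      all_goals simp
  · intro x y h
    rcases x with _ | m | t <;> rcases y with _ | m' | t' <;> exact h
  · intro k
    apply OkMeet.of_le
    · intro x y y' h h'
      rcases x with _ | m | t
      · rcases y with _ | m' | t'
        · exact h.elim
        · rcases y' with _ | m'' | t''
          · exact h'.elim
          · exact ⟨Or.inl h, h'.2⟩
          · exact h'.elim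
        · exact h.elim
      · rcases y with _ | m' | t' <;> exact h.elim
      · rcases y with _ | m' | t' <;> exact h.elim
    · intro x y h
      rcases x with _ | m | t
      · exact ⟨.mid (.a k), rfl⟩
      · rcases y with _ | m' | t' <;> exact h.elim
      · rcases y with _ | m' | t' <;> exact h.elim
  · intro i
    apply OkMeet.of_le
    · intro x y y' h h'
      rcases x with _ | m | t
      · rcases y with _ | m' | t'
        · exact h.elim
        · exact h.elim
        · exact Or.inl ⟨h, trivial⟩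
      · rcases y with _ | m' | t' <;> exact h.elim
      · rcases y with _ | m' | t' <;> exact h.elim
    · intro x y h
      rcases x with _ | m | t
      · exact ⟨.top .zs, rfl⟩
      · rcases y with _ | m' | t' <;> exact h.elim
      · rcases y with _ | m' | t' <;> exact h.elim
  · intro i
    apply OkMeet.of_le
    · intro x y y' h h'
      rcases x with _ | m | t
      · rcases y with _ | m' | t'
        · exact h.elim
        · exact h.elim
        · rcases y' with _ | m'' | t''
          · exact h'.elim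
          · exact h'.elim
          · exact Or.inl ⟨h, hTP _ _ h'⟩
      · rcases y with _ | m' | t' <;> exact h.elim
      · rcases y with _ | m' | t' <;> exact h.elim
    · intro x y h
      rcases x with _ | m | t
      · exact ⟨.top .zs, rfl⟩
      · rcases y with _ | m' | t' <;> exact h.elim
      · rcases y with _ | m' | t' <;> exact h.elim
  · intro i
    have key : ∀ t, rel (K1 J) (K2 N J) (KQ σ N J) (.T none) .root (.top t) ↔ t = .zs := by
      intro t
      simp [rel, K2, TP, inJ]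
    have key' : ∀ t, rel (K1 J) (K2 N J) (KQ σ N J) (.M i) .root (.top t) ↔ t = .zs := by
      intro t
      simp [rel, K2]
    refine ⟨fun x y y' h h' => ?_, fun x y => ?_⟩
    · rcases x with _ | m | t
      · refine ⟨.top .zs, Or.inl ⟨rfl, trivial⟩, Or.inl ⟨rfl, ?_⟩⟩
        rcases y' with _ | m'' | t''
        · exact h'.elim
        · exact h'.elim
        · exact hTP _ _ h'
      · rcases y with _ | m' | t' <;> exact h.elim
      · rcases y with _ | m' | t' <;> exact h.elim
    · rcases x with _ | m | t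
      · rcases y with _ | m' | t'
        · simp [rel, K2]
        · simp [rel, K2, K1]
        · rw [key, key']
          constructor
          · intro h
            by_cases hi : i ∈ J
            · exact Or.inl ⟨h, Or.inl ⟨h, hi⟩⟩
            · refine Or.inr (Or.inl ⟨h, ?_⟩)
              intro w hw
              rcases w with _ | m | t
              · exact hw
              · exact hw
              · exact hi (hTP _ _ hw)
          · rintro (⟨h, -⟩ | ⟨h, -⟩ | ⟨h, h'⟩)
            · exact h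
            · exact h
            · exact absurd ((key .zs).mpr rfl) (h' _)
      · rcases y with _ | m' | t' <;> simp [rel, K2, K1, KQ]
      · rcases y with _ | m' | t' <;> simp [rel]

theorem good_L : Good σ N (rel L1 L2 (LQ σ N)) := by
  classical
  apply good_of
  · apply comp_of
    · intro a b m h
      rcases mul_cases σ N a b with h' | ⟨k, h'⟩ <;> rw [h'] at h <;> exact h
    · intro a b m t h
      rcases mul_cases σ N a b with h' | ⟨k, h'⟩ <;> rw [h'] at h <;> exact h
    · intro a b t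
      rcases a with (_|k)|k|k|k|k|k|_ <;> rcases b with k'|k'|k'|k'|k'|k'|_ <;>
        simp only [mulE, L1, L2, LQ, false_and, and_false, exists_false, exists_eq_left] 
      · by_cases h : none = k'
        · subst h
          simp
        · simp [h]
          exact fun h1 => absurd h1.symm h
      · rcases k' with _ | k' <;> simp
      · by_cases h : some k = k'
        · subst h
          simp
        · simp [h]
      · rcases k' with _ | k' <;> simp
      · by_cases h : k = k'
        · subst h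
          rcases k with _ | k
          · simp
          · simp
        · rcases k' with _ | k'
          · simp [h]
          · simp [h]
            aesop
      · by_cases h : k = some (σ k')
        · subst h
          rcases k' with _ | k'
          · simp
          · simp
        · rcases k' with _ | k'
          · simp [h]
          · simp [h]
            aesop
  · intro x y h
    rcases x with _ | m | t <;> rcases y with _ | m' | t' <;> exact h
  · intro k
    apply OkMeet.of_le
    · intro x y y' h h'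
      rcases x with _ | m | t
      · rcases y with _ | m' | t'
        · exact h.elim
        · rcases y' with _ | m'' | t''
          · exact h'.elim
          · exact ⟨Or.inl h, h'.2⟩
          · exact h'.elim
        · exact h.elim
      · rcases y with _ | m' | t' <;> exact h.elim
      · rcases y with _ | m' | t' <;> exact h.elim
    · intro x y h
      rcases x with _ | m | t
      · exact ⟨.mid (.a k), rfl⟩
      · rcases y with _ | m' | t' <;> exact h.elim
      · rcases y with _ | m' | t' <;> exact h.elim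
  · intro i
    apply OkMeet.of_le
    · intro x y y' h h'
      rcases x with _ | m | t
      · rcases y' with _ | m' | t'
        · exact h'.elim
        · exact h'.elim
        · obtain ⟨_, h1, -⟩ := h'
          exact absurd h1 (by simp)
      · rcases y with _ | m' | t' <;> exact h.elim
      · rcases y with _ | m' | t' <;> exact h.elim
    · intro x y h
      rcases x with _ | m | t
      · rcases y with _ | m' | t'
        · exact h.elim
        · exact h.elim
        · obtain ⟨_, h1, -⟩ := h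
          exact absurd h1 (by simp)
      · rcases y with _ | m' | t' <;> exact h.elim
      · rcases y with _ | m' | t' <;> exact h.elim
  · intro i
    apply OkMeet.of_le
    · intro x y y' h h'
      rcases x with _ | m | t
      · rcases y with _ | m' | t'
        · exact h.elim
        · exact h.elim
        · exact ⟨i, rfl, h⟩
      · rcases y with _ | m' | t' <;> exact h.elim
      · rcases y with _ | m' | t' <;> exact h.elim
    · intro x y h
      rcases x with _ | m | t
      · exact ⟨.top (.z i), rfl⟩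
      · rcases y with _ | m' | t' <;> exact h.elim
      · rcases y with _ | m' | t' <;> exact h.elim
  · intro i
    have key : ∀ x y, ¬ rel L1 L2 (LQ σ N) (.T none) x y := by
      intro x y h
      rcases x with _ | m | t <;> rcases y with _ | m' | t' <;>
        simp [rel, L1, L2, LQ] at h
    have key' : ∀ x y, rel L1 L2 (LQ σ N) (.M i) x y ↔ rel L1 L2 (LQ σ N) (.T (some i)) x y := by
      intro x y
      rcases x with _ | m | t <;> rcases y with _ | m' | t' <;>
        simp [rel, L1, L2, LQ]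
    refine ⟨fun x y y' h h' => absurd h (key _ _), fun x y => ?_⟩
    rw [key' x y]
    constructor
    · intro h
      exact Or.inr (Or.inr ⟨h, fun w => key _ _⟩)
    · rintro (⟨h, -⟩ | ⟨h, -⟩ | ⟨h, h'⟩)
      · exact absurd h (key _ _)
      · exact absurd h (key _ _)
      · exact h

/-- The components of the representation. -/
def R (J : Set I) : Fin 3 → El I → Nd I → Nd I → Prop
  | 0 => rel (K1 Set.univ) (K2 N Set.univ) (KQ σ N Set.univ)
  | 1 => rel (K1 J) (K2 N J) (KQ σ N J)
  | 2 => rel L1 L2 (LQ σ N)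

theorem K1_inv {J : Set I} {e : El I} {m : Mid I} (h : K1 J e m) :
    (∃ k, m = .a k ∧ (e = .A k ∨ e = .C k)) ∨ (∃ k, m = .c k ∧ e = .C k) ∨
      (∃ k, m = .wb k ∧ e = .B k) ∨ (∃ k, m = .wf k ∧ e = .F k) := by
  rcases e with k|k|k|k|k|k|_
  · exact Or.inl ⟨k, h, Or.inl rfl⟩
  · rcases h.1 with h | h
    · exact Or.inl ⟨k, h, Or.inr rfl⟩
    · exact Or.inr (Or.inl ⟨k, h, rfl⟩)
  · exact Or.inr (Or.inr (Or.inl ⟨k, h, rfl⟩))
  · exact Or.inr (Or.inr (Or.inr ⟨k, h, rfl⟩))
  · exact h.elim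
  · exact h.elim
  · exact h.elim

theorem K2_inv {J : Set I} {e : El I} {t : Top I} (h : K2 N J e t) :
    (∃ k, e = .T k) ∨ (∃ i, e = .M i) := by
  rcases e with k|k|k|k|k|k|_
  · exact h.elim
  · exact h.elim
  · exact h.elim
  · exact h.elim
  · exact Or.inl ⟨k, rfl⟩
  · exact Or.inr ⟨k, rfl⟩
  · exact h.elim

theorem ex0 (J : Set I) (e : El I) (he : e ≠ .E) : ∃ y, R σ N J 0 e .root y := by
  rcases e with k|k|k|k|k|k|_
  · exact ⟨.mid (.a k), rfl⟩
  · exact ⟨.mid (.a k), Or.inl rfl, by cases k <;> trivial⟩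
  · exact ⟨.mid (.wb k), rfl⟩
  · exact ⟨.mid (.wf k), rfl⟩
  · exact ⟨.top .zs, Or.inl ⟨rfl, by cases k <;> trivial⟩⟩
  · exact ⟨.top .zs, rfl⟩
  · exact absurd rfl he

theorem sep (J : Set I) (a b : El I) (hc : ∀ i x, (∃ y, R σ N J i a x y) →
    (∃ y, R σ N J i b x y) → ∃ y, R σ N J i a x y ∧ R σ N J i b x y) : ∃ c, MtE a b c := by
  by_cases ha : a = .E
  · exact ⟨b, Or.inr (Or.inr (Or.inl ⟨ha, rfl⟩))⟩
  by_cases hb : b = .E
  · exact ⟨a, Or.inr (Or.inl ⟨hb, rfl⟩)⟩
  obtain ⟨y, h1, h2⟩ := hc 0 .root (ex0 σ N J a ha) (ex0 σ N J b hb)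
  have hM : ∀ i, ∃ y, R σ N J 2 (.M i) .root y := fun i => ⟨.top (.z i), rfl⟩
  have hT : ∀ i, ∃ y, R σ N J 2 (.T (some i)) .root y := fun i => ⟨.top (.z i), i, rfl, rfl⟩
  rcases y with _ | m | t
  · exact h1.elim
  · rcases K1_inv h1 with ⟨k, rfl, rfl | rfl⟩ | ⟨k, rfl, rfl⟩ | ⟨k, rfl, rfl⟩ | ⟨k, rfl, rfl⟩ <;>
      rcases K1_inv h2 with ⟨k', h, rfl | rfl⟩ | ⟨k', h, rfl⟩ | ⟨k', h, rfl⟩ | ⟨k', h, rfl⟩ <;>
      cases h <;> first
      | exact ⟨_, Or.inl ⟨rfl, rfl⟩⟩
      | exact ⟨_, Or.inr (Or.inr (Or.inr (Or.inl ⟨_, rfl, rfl, rfl⟩)))⟩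
      | exact ⟨_, Or.inr (Or.inr (Or.inr (Or.inr (Or.inl ⟨_, rfl, rfl, rfl⟩))))⟩
  · rcases K2_inv N h1 with ⟨k, rfl⟩ | ⟨i, rfl⟩ <;> rcases K2_inv N h2 with ⟨k', rfl⟩ | ⟨i', rfl⟩
    · rcases k with _ | i <;> rcases k' with _ | i'
      · exact ⟨_, Or.inl ⟨rfl, rfl⟩⟩
      · exact ⟨.M i', by simp [MtE]⟩
      · exact ⟨.M i, by simp [MtE]⟩
      · obtain ⟨y, h3, h4⟩ := hc 2 .root (hT i) (hT i')
        rcases y with _ | m | t
        · exact h3.elim
        · exact h3.elim
        · obtain ⟨j, hj, rfl⟩ := h3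
          obtain ⟨j', hj', h5⟩ := h4
          simp only [Option.some.injEq] at hj hj'
          simp only [Top.z.injEq] at h5
          subst hj; subst hj'; subst h5
          exact ⟨_, Or.inl ⟨rfl, rfl⟩⟩
    · rcases k with _ | i
      · exact ⟨.M i', by simp [MtE]⟩
      · obtain ⟨y, h3, h4⟩ := hc 2 .root (hT i) (hM i')
        rcases y with _ | m | t
        · exact h3.elim
        · exact h3.elim
        · obtain ⟨j, hj, rfl⟩ := h3
          have h5 : Top.z j = Top.z i' := h4
          simp only [Option.some.injEq] at hj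
          simp only [Top.z.injEq] at h5
          subst hj; subst h5
          exact ⟨.M i, by simp [MtE]⟩
    · rcases k' with _ | i'
      · exact ⟨.M i, by simp [MtE]⟩
      · obtain ⟨y, h4, h3⟩ := hc 2 .root (hM i) (hT i')
        rcases y with _ | m | t
        · exact h3.elim
        · exact h3.elim
        · obtain ⟨j, hj, rfl⟩ := h3
          have h5 : Top.z j = Top.z i := h4
          simp only [Option.some.injEq] at hj
          simp only [Top.z.injEq] at h5
          subst hj; subst h5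
          exact ⟨.M i', by simp [MtE]⟩
    · obtain ⟨y, h3, h4⟩ := hc 2 .root (hM i) (hM i')
      rcases y with _ | m | t
      · exact h3.elim
      · exact h3.elim
      · have h5 : t = Top.z i := h3
        have h6 : t = Top.z i' := h4
        rw [h5] at h6
        simp only [Top.z.injEq] at h6
        subst h6
        exact ⟨_, Or.inl ⟨rfl, rfl⟩⟩

theorem inj (J : Set I) (hN : N ∉ J) (a b : El I)
    (h : ∀ i x y, R σ N J i a x y ↔ R σ N J i b x y) : a = b := by
  have hAC : ∀ k, ¬ ∀ i x y, R σ N J i (.A k) x y ↔ R σ N J i (.C k) x y := by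
    intro k h
    have h1 := (h 0 .root (.mid (.c k))).mpr ⟨Or.inr rfl, by cases k <;> trivial⟩
    have h2 : Mid.c k = Mid.a k := h1
    cases h2
  have hM0 : ∀ i, ¬ ∀ j x y, R σ N J j (.M i) x y ↔ R σ N J j (.T none) x y := by
    intro i h
    obtain ⟨j, hj, -⟩ := (h 2 .root (.top (.z i))).mp rfl
    cases hj
  have hM : ∀ i, ¬ ∀ j x y, R σ N J j (.M i) x y ↔ R σ N J j (.T (some i)) x y := by
    intro i h
    by_cases hi : i = N
    · subst hi
      rcases (h 1 .root (.top .zs)).mp rfl with ⟨-, h1⟩ | ⟨_, _, h1, _⟩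
      · exact hN h1
      · cases h1
    · have h1 := (h 0 .root (.top (.z i))).mpr (Or.inr ⟨i, rfl, rfl, trivial, hi⟩)
      have h2 : Top.z i = Top.zs := h1
      cases h2
  have hT : ∀ i, ¬ ∀ j x y, R σ N J j (.T none) x y ↔ R σ N J j (.T (some i)) x y := by
    intro i h
    obtain ⟨j, hj, -⟩ := (h 2 .root (.top (.z i))).mpr ⟨i, rfl, rfl⟩
    cases hj
  obtain ⟨c, hc⟩ := sep σ N J a b (fun i x ⟨y, hy⟩ _ => ⟨y, hy, (h i x y).mp hy⟩)
  rcases hc with ⟨rfl, rfl⟩ | ⟨rfl, rfl⟩ | ⟨rfl, rfl⟩ | ⟨k, rfl, rfl, rfl⟩ | ⟨k, rfl, rfl, rfl⟩ |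
    ⟨k, rfl, rfl, rfl⟩ | ⟨k, rfl, rfl, rfl⟩ | ⟨k, rfl, rfl, rfl⟩ | ⟨k, rfl, rfl, rfl⟩ |
    ⟨k, rfl, rfl, rfl⟩ | ⟨k, rfl, rfl, rfl⟩
  · rfl
  · by_contra hne
    obtain ⟨y, hy⟩ := ex0 σ N J _ hne
    rcases y with _ | m | t
    · exact hy
    · exact (h 0 _ _).mp hy
    · exact (h 0 _ _).mp hy
  · by_contra hne
    obtain ⟨y, hy⟩ := ex0 σ N J _ (Ne.symm hne)
    rcases y with _ | m | t
    · exact hy
    · exact (h 0 _ _).mpr hy
    · exact (h 0 _ _).mpr hy
  · exact absurd h (hAC k)
  · exact absurd (fun i x y => (h i x y).symm) (hAC k)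
  · exact absurd h (hM0 k)
  · exact absurd (fun i x y => (h i x y).symm) (hM0 k)
  · exact absurd h (hM k)
  · exact absurd (fun i x y => (h i x y).symm) (hM k)
  · exact absurd h (hT k)
  · exact absurd (fun i x y => (h i x y).symm) (hT k)

theorem good_R (J : Set I) (h0 : σ none ∈ J) (hs : ∀ i ∈ J, σ (some i) ∈ J) (i : Fin 3) :
    Good σ N (R σ N J i) := by
  fin_cases i
  · exact good_K σ N Set.univ (Set.mem_univ _) (fun _ _ => Set.mem_univ _)
  · exact good_K σ N J h0 hs
  · exact good_L σ N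

/-- The representation. -/
def θ (J : Set I) (e : El I) : Set ((Fin 3 × Nd I) × (Fin 3 × Nd I)) :=
  {p | p.1.1 = p.2.1 ∧ R σ N J p.1.1 e p.1.2 p.2.2}

theorem mem_dom_θ (J : Set I) (e : El I) (i : Fin 3) (x : Nd I) :
    (i, x) ∈ dom (θ σ N J e) ↔ ∃ y, R σ N J i e x y := by
  constructor
  · rintro ⟨⟨j, y⟩, h1, h2⟩
    exact ⟨y, h2⟩
  · rintro ⟨y, h⟩
    exact ⟨(i, y), rfl, h⟩

theorem θ_mul (J : Set I) (h0 : σ none ∈ J) (hs : ∀ i ∈ J, σ (some i) ∈ J) (a b : El I) :
    θ σ N J (mulE σ N a b) = compo (θ σ N J a) (θ σ N J b) := by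
  ext ⟨⟨i, x⟩, ⟨j, z⟩⟩
  constructor
  · rintro ⟨h1, h2⟩
    have h1 : i = j := h1
    subst h1
    obtain ⟨y, h3, h4⟩ := ((good_R σ N J h0 hs i).1 a b x z).mp h2
    exact ⟨(i, y), ⟨rfl, h3⟩, ⟨rfl, h4⟩⟩
  · rintro ⟨⟨k, y⟩, ⟨h1, h2⟩, ⟨h3, h4⟩⟩
    have h1 : i = k := h1
    have h3 : k = j := h3
    subst h1; subst h3
    exact ⟨rfl, ((good_R σ N J h0 hs i).1 a b x z).mpr ⟨y, h2, h4⟩⟩

theorem θ_meet (J : Set I) (h0 : σ none ∈ J) (hs : ∀ i ∈ J, σ (some i) ∈ J) (a b c : El I)
    (h : MtE a b c) : MeetDef (θ σ N J a) (θ σ N J b) ∧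
      θ σ N J c = dmeet (θ σ N J a) (θ σ N J b) := by
  constructor
  · apply Set.Subset.antisymm
    · rintro ⟨i, x⟩ ⟨h1, h2⟩
      rw [mem_dom_θ] at h1 h2
      obtain ⟨y, h1⟩ := h1
      obtain ⟨y', h2⟩ := h2
      obtain ⟨w, h3, h4⟩ := ((good_R σ N J h0 hs i).2 a b c h).1 x y y' h1 h2
      exact ⟨(i, w), ⟨rfl, h3⟩, ⟨rfl, h4⟩⟩
    · rintro x ⟨y, h1, h2⟩
      exact ⟨⟨y, h1⟩, ⟨y, h2⟩⟩
  · ext ⟨⟨i, x⟩, ⟨j, z⟩⟩
    have key := ((good_R σ N J h0 hs i).2 a b c h).2 x z
    constructor
    · rintro ⟨h1, h2⟩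
      have h1 : i = j := h1
      subst h1
      rcases key.mp h2 with ⟨h3, h4⟩ | ⟨h3, h4⟩ | ⟨h3, h4⟩
      · exact Or.inl (Or.inl ⟨⟨rfl, h3⟩, ⟨rfl, h4⟩⟩)
      · refine Or.inl (Or.inr ⟨⟨rfl, h3⟩, ?_⟩)
        intro h5
        rw [mem_dom_θ] at h5
        obtain ⟨w, hw⟩ := h5
        exact h4 w hw
      · refine Or.inr ⟨⟨rfl, h3⟩, ?_⟩
        intro h5
        rw [mem_dom_θ] at h5
        obtain ⟨w, hw⟩ := h5
        exact h4 w hw
    · rintro ((⟨⟨h1, h2⟩, ⟨-, h3⟩⟩ | ⟨⟨h1, h2⟩, h3⟩) | ⟨⟨h1, h2⟩, h3⟩)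
      · exact ⟨h1, key.mpr (Or.inl ⟨h2, h3⟩)⟩
      · refine ⟨h1, key.mpr (Or.inr (Or.inl ⟨h2, fun w hw => h3 ?_⟩))⟩
        exact (mem_dom_θ σ N J b i x).mpr ⟨w, hw⟩
      · refine ⟨h1, key.mpr (Or.inr (Or.inr ⟨h2, fun w hw => h3 ?_⟩))⟩
        exact (mem_dom_θ σ N J a i x).mpr ⟨w, hw⟩

theorem θ_inj (J : Set I) (hN : N ∉ J) : Function.Injective (θ σ N J) := by
  intro a b h
  apply inj σ N J hN
  intro i x y
  have : (((i, x), (i, y)) ∈ θ σ N J a) ↔ (((i, x), (i, y)) ∈ θ σ N J b) := by rw [h]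
  simpa [θ] using this

theorem θ_sep (J : Set I) (a b : El I) (h : MeetDef (θ σ N J a) (θ σ N J b)) :
    ∃ c, MtE a b c := by
  apply sep σ N J
  intro i x h1 h2
  have h3 : (i, x) ∈ dom (θ σ N J a) ∩ dom (θ σ N J b) :=
    ⟨(mem_dom_θ σ N J a i x).mpr h1, (mem_dom_θ σ N J b i x).mpr h2⟩
  rw [h] at h3
  obtain ⟨⟨j, y⟩, ⟨-, h4⟩, ⟨-, h5⟩⟩ := h3
  exact ⟨y, h4, h5⟩

theorem representable_of {S : Type} [L.Structure S] (Φ : El I → S) (hb : Function.Bijective Φ)
    (hmul : ∀ a b, mul (Φ a) (Φ b) = Φ (mulE σ N a b))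
    (hMt : ∀ a b c, Mt (Φ a) (Φ b) (Φ c) ↔ MtE a b c)
    (J : Set I) (h0 : σ none ∈ J) (hs : ∀ i ∈ J, σ (some i) ∈ J) (hN : N ∉ J) :
    Representable S := by
  let e := Equiv.ofBijective Φ hb
  have he : ∀ a, e.symm (Φ a) = a := fun a => e.symm_apply_apply a
  have hinj := θ_inj σ N J hN
  rw [representable_iff]
  refine ⟨Fin 3 × Nd I, fun s => θ σ N J (e.symm s), fun a b h => ?_, fun a b => ?_,
    fun a b c => ?_, fun a b h => ?_⟩
  · exact e.symm.injective (hinj h)
  · obtain ⟨a, rfl⟩ := hb.2 a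
    obtain ⟨b, rfl⟩ := hb.2 b
    simp only [hmul, he]
    exact θ_mul σ N J h0 hs a b
  · obtain ⟨a, rfl⟩ := hb.2 a
    obtain ⟨b, rfl⟩ := hb.2 b
    obtain ⟨c, rfl⟩ := hb.2 c
    simp only [hMt, he]
    constructor
    · exact θ_meet σ N J h0 hs a b c
    · rintro ⟨h1, h2⟩
      obtain ⟨c', hc'⟩ := θ_sep σ N J a b h1
      have := (θ_meet σ N J h0 hs a b c' hc').2
      rw [← h2] at this
      rw [← hinj this]
      exact hc'
  · obtain ⟨a, rfl⟩ := hb.2 a
    obtain ⟨b, rfl⟩ := hb.2 b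
    simp only [he] at h ⊢
    obtain ⟨c', hc'⟩ := θ_sep σ N J a b h
    refine ⟨Φ c', ?_⟩
    rw [he]
    exact (θ_meet σ N J h0 hs a b c' hc').2

/-! ### The other structures are not representable -/

/-- If `P ⊓ Q = P` then on the domain of `Q` the relation `P` is contained in `Q`. -/
theorem le_of_meet {X : Type} {P Q : Set (X × X)} (h : P = dmeet P Q) {x y : X}
    (hxy : (x, y) ∈ P) (hx : x ∈ dom Q) : (x, y) ∈ Q := by
  rw [h] at hxy
  rcases hxy with (h1 | h1) | h1
  · exact h1.2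
  · exact absurd hx h1.2
  · exact h1.1

theorem not_representable {S : Type} [L.Structure S] (Φ : El I → S)
    (hΦ : Function.Injective Φ)
    (hmul : ∀ a b, mul (Φ a) (Φ b) = Φ (mulE σ N a b))
    (hMt : ∀ a b c, MtE a b c → Mt (Φ a) (Φ b) (Φ c))
    (hN : ∀ J : Set I, σ none ∈ J → (∀ i ∈ J, σ (some i) ∈ J) → N ∈ J) :
    ¬ Representable S := by
  rw [representable_iff]
  rintro ⟨X, θ, hinj, hθmul, hθMt, -⟩
  have hcomp : ∀ a b, θ (Φ (mulE σ N a b)) = compo (θ (Φ a)) (θ (Φ b)) := by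
    intro a b
    rw [← hmul, hθmul]
  have hAC : ∀ k x y, (x, y) ∈ θ (Φ (.A k)) → x ∈ dom (θ (Φ (.C k))) → (x, y) ∈ θ (Φ (.C k)) := by
    intro k x y h1 h2
    have h3 : MtE (El.A k) (.C k) (.A k) := Or.inr (Or.inr (Or.inr (Or.inl ⟨_, rfl, rfl, rfl⟩)))
    exact le_of_meet ((hθMt _ _ _).mp (hMt _ _ _ h3)).2 h1 h2
  have mT0 : ∀ i, mulE σ N (.A (some i)) (.B (some i)) = .T none := by intro i; simp [mulE]
  have mTk : ∀ k, mulE σ N (.C k) (.B k) = .T k := by intro k; simp [mulE]
  have mTN : mulE σ N (.A none) (.B none) = .T (some N) := by simp [mulE]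
  have mF : ∀ k, mulE σ N (.C (some (σ k))) (.F k) = .T k := by intro k; simp [mulE]
  -- a point of `T none` is a point of all `T (some i)`
  have key : ∀ x z, (x, z) ∈ θ (Φ (.T none)) → (x, z) ∈ θ (Φ (.T (some N))) := by
    intro x z hxz
    apply hN {i | (x, z) ∈ θ (Φ (.T (some i)))}
    · have h1 : x ∈ dom (θ (Φ (.C (some (σ none))))) := by
        rw [← mF none, hcomp] at hxz
        obtain ⟨y, h1, -⟩ := hxz
        exact ⟨y, h1⟩
      have h2 := hxz
      rw [← mT0 (σ none), hcomp] at h2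
      obtain ⟨y, h3, h4⟩ := h2
      show (x, z) ∈ θ (Φ (.T (some (σ none))))
      rw [← mTk, hcomp]
      exact ⟨y, hAC _ _ _ h3 h1, h4⟩
    · intro i hi
      have hi : (x, z) ∈ θ (Φ (.T (some i))) := hi
      have h1 : x ∈ dom (θ (Φ (.C (some (σ (some i)))))) := by
        rw [← mF (some i), hcomp] at hi
        obtain ⟨y, h1, -⟩ := hi
        exact ⟨y, h1⟩
      have h2 := hxz
      rw [← mT0 (σ (some i)), hcomp] at h2
      obtain ⟨y, h3, h4⟩ := h2
      show (x, z) ∈ θ (Φ (.T (some (σ (some i)))))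
      rw [← mTk, hcomp]
      exact ⟨y, hAC _ _ _ h3 h1, h4⟩
  have key2 : ∀ x z, (x, z) ∈ θ (Φ (.T (some N))) → x ∈ dom (θ (Φ (.T none))) →
      (x, z) ∈ θ (Φ (.T none)) := by
    intro x z hxz hx
    rw [← mTN, hcomp] at hxz
    obtain ⟨y, h1, h2⟩ := hxz
    have h3 : x ∈ dom (θ (Φ (.C none))) := by
      obtain ⟨w, hw⟩ := hx
      rw [← mTk, hcomp] at hw
      obtain ⟨y, hy, -⟩ := hw
      exact ⟨y, hy⟩
    rw [← mTk, hcomp]
    exact ⟨y, hAC _ _ _ h1 h3, h2⟩
  have hmeet : MtE (El.T none) (.T (some N)) (.M N) := by simp [MtE]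
  have h1 := ((hθMt _ _ _).mp (hMt _ _ _ hmeet)).2
  have h2 : θ (Φ (.M N)) = θ (Φ (.T (some N))) := by
    rw [h1]
    ext ⟨x, z⟩
    constructor
    · rintro ((⟨-, h⟩ | ⟨h, -⟩) | ⟨h, -⟩)
      · exact h
      · exact key _ _ h
      · exact h
    · intro h
      by_cases hx : x ∈ dom (θ (Φ (.T none)))
      · exact Or.inl (Or.inl ⟨key2 _ _ h hx, h⟩)
      · exact Or.inr ⟨h, hx⟩
  have h3 := hΦ (hinj h2)
  cases h3

end comps

/-! ### The ultraproduct -/

/-- The structure with index set `I`, successor function `σ` and distinguished index `N`. -/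
def Alg {I : Type} (_ : Option I → I) (_ : I) : Type := El I

noncomputable instance instAlg {I : Type} (σ : Option I → I) (N : I) : L.Structure (Alg σ N) where
  funMap := fun {n} f => match n, f with
    | _, Fn.comp => fun x => mulE σ N (x 0) (x 1)
  RelMap := fun {n} r => match n, r with
    | _, Rl.meet => fun x => MtE (x 0 : El I) (x 1) (x 2)

/-- successor on the natural numbers -/
def σ₀ : Option ℕ → ℕ
  | none => 0
  | some i => i + 1

theorem not_rep (n : ℕ) : ¬ Representable (Alg σ₀ n) := by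
  apply not_representable σ₀ n (S := Alg σ₀ n) (fun e => e) (fun _ _ h => h)
  · intro a b
    rfl
  · intro a b c h
    exact h
  · intro J h0 hs
    induction n with
    | zero => exact h0
    | succ n ih => exact hs _ ih

theorem isStr (n : ℕ) : IsStr (Alg σ₀ n) := by
  have : ∀ a b c c' : El ℕ, MtE a b c → MtE a b c' → c = c' := by
    intro a b c c' h h'
    rcases h with ⟨rfl, rfl⟩ | ⟨rfl, rfl⟩ | ⟨rfl, rfl⟩ | ⟨k, rfl, rfl, rfl⟩ | ⟨k, rfl, rfl, rfl⟩ |
      ⟨k, rfl, rfl, rfl⟩ | ⟨k, rfl, rfl, rfl⟩ | ⟨k, rfl, rfl, rfl⟩ | ⟨k, rfl, rfl, rfl⟩ |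
      ⟨k, rfl, rfl, rfl⟩ | ⟨k, rfl, rfl, rfl⟩ <;>
    rcases h' with ⟨h, rfl⟩ | ⟨h, rfl⟩ | ⟨h, rfl⟩ | ⟨k, h, h1, rfl⟩ | ⟨k, h, h1, rfl⟩ |
      ⟨k, h, h1, rfl⟩ | ⟨k, h, h1, rfl⟩ | ⟨k, h, h1, rfl⟩ | ⟨k, h, h1, rfl⟩ |
      ⟨k, h, h1, rfl⟩ | ⟨k, h, h1, rfl⟩ <;> simp_all
  exact this

/-- The ultrafilter. -/
noncomputable abbrev U : Ultrafilter ℕ := hyperfilter ℕ

/-- The nonstandard indices. -/
abbrev NI : Type := (U : Filter ℕ).Product (fun _ => ℕ)

/-- The ultraproduct of the structures. -/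
abbrev P : Type := (U : Filter ℕ).Product (fun n => Alg σ₀ n)

/-- the class of a sequence of indices -/
noncomputable def cl (f : ℕ → ℕ) : NI := @Quotient.mk' _ ((U : Filter ℕ).productSetoid (fun _ => ℕ)) f

theorem U_ne : (U : Filter ℕ) ≠ ⊥ := NeBot.ne inferInstance

theorem cl_eq {f g : ℕ → ℕ} : cl f = cl g ↔ ∀ᶠ n in (U : Filter ℕ), f n = g n :=
  Quotient.eq (r := (U : Filter ℕ).productSetoid (fun _ => ℕ))

/-- a representative -/
noncomputable def repI (i : NI) : ℕ → ℕ := Quotient.out i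

theorem cl_repI (i : NI) : cl (repI i) = i :=
  @Quotient.out_eq' _ ((U : Filter ℕ).productSetoid (fun _ => ℕ)) i

noncomputable def rep : Option NI → ℕ → Option ℕ
  | none => fun _ => none
  | some i => fun n => some (repI i n)

theorem repI_eq {i j : NI} : (∀ᶠ n in (U : Filter ℕ), repI i n = repI j n) ↔ i = j := by
  rw [← cl_eq, cl_repI, cl_repI]

theorem rep_eq {k l : Option NI} : (∀ᶠ n in (U : Filter ℕ), rep k n = rep l n) ↔ k = l := by
  rcases k with _ | i <;> rcases l with _ | j <;> simp [rep, repI_eq, U_ne]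

theorem repI_surj (f : ℕ → ℕ) : ∃ i, ∀ᶠ n in (U : Filter ℕ), f n = repI i n :=
  ⟨cl f, by rw [← cl_eq, cl_repI]⟩

theorem rep_surj (f : ℕ → Option ℕ) : ∃ k, ∀ᶠ n in (U : Filter ℕ), f n = rep k n := by
  have h : ∀ᶠ n in (U : Filter ℕ), f n = none ∨ ∃ i, f n = some i := by
    refine Eventually.of_forall fun n => ?_
    rcases f n with _ | i
    · exact Or.inl rfl
    · exact Or.inr ⟨i, rfl⟩
  rw [Ultrafilter.eventually_or] at h
  rcases h with h | h
  · exact ⟨none, h⟩
  · obtain ⟨i, hi⟩ := repI_surj (fun n => (f n).getD 0)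
    refine ⟨some i, ?_⟩
    filter_upwards [h, hi] with n h1 h2
    obtain ⟨j, hj⟩ := h1
    rw [hj] at h2 ⊢
    simp only [Option.getD_some] at h2
    rw [h2]
    rfl

/-- The successor function on the nonstandard indices. -/
noncomputable def σU (k : Option NI) : NI := cl fun n => σ₀ (rep k n)

/-- The infinite index. -/
noncomputable def NU : NI := cl fun n => n

theorem repI_σU (k : Option NI) : ∀ᶠ n in (U : Filter ℕ), repI (σU k) n = σ₀ (rep k n) := by
  rw [← cl_eq, cl_repI]
  rfl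

theorem repI_NU : ∀ᶠ n in (U : Filter ℕ), repI NU n = n := by
  rw [← cl_eq, cl_repI]
  rfl

/-- the elements of the ultraproduct -/
noncomputable def lift : El NI → ℕ → El ℕ
  | .A k => fun n => .A (rep k n)
  | .C k => fun n => .C (rep k n)
  | .B k => fun n => .B (rep k n)
  | .F k => fun n => .F (rep k n)
  | .T k => fun n => .T (rep k n)
  | .M i => fun n => .M (repI i n)
  | .E => fun _ => .E

noncomputable def Φ (e : El NI) : P :=
  @Quotient.mk' _ ((U : Filter ℕ).productSetoid (fun n => Alg σ₀ n)) (fun n => (lift e n : El ℕ))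

theorem lift_inj {e e' : El NI} : (∀ᶠ n in (U : Filter ℕ), lift e n = lift e' n) ↔ e = e' := by
  rcases e with k|k|k|k|k|k|_ <;> rcases e' with l|l|l|l|l|l|_ <;>
    simp [lift, rep_eq, repI_eq, U_ne]

theorem lift_surj (f : ℕ → El ℕ) : ∃ e, ∀ᶠ n in (U : Filter ℕ), f n = lift e n := by
  have h : ∀ᶠ n in (U : Filter ℕ), (∃ k, f n = .A k) ∨ (∃ k, f n = .C k) ∨ (∃ k, f n = .B k) ∨
      (∃ k, f n = .F k) ∨ (∃ k, f n = .T k) ∨ (∃ k, f n = .M k) ∨ f n = .E := by
    refine Eventually.of_forall fun n => ?_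
    rcases f n with k|k|k|k|k|k|_ <;> simp
  simp only [Ultrafilter.eventually_or] at h
  rcases h with h | h | h | h | h | h | h
  · obtain ⟨g, hg⟩ := Filter.Eventually.choice h
    obtain ⟨k, hk⟩ := rep_surj g
    exact ⟨.A k, by filter_upwards [hg, hk] with n h1 h2; rw [h1, h2]; rfl⟩
  · obtain ⟨g, hg⟩ := Filter.Eventually.choice h
    obtain ⟨k, hk⟩ := rep_surj g
    exact ⟨.C k, by filter_upwards [hg, hk] with n h1 h2; rw [h1, h2]; rfl⟩
  · obtain ⟨g, hg⟩ := Filter.Eventually.choice h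
    obtain ⟨k, hk⟩ := rep_surj g
    exact ⟨.B k, by filter_upwards [hg, hk] with n h1 h2; rw [h1, h2]; rfl⟩
  · obtain ⟨g, hg⟩ := Filter.Eventually.choice h
    obtain ⟨k, hk⟩ := rep_surj g
    exact ⟨.F k, by filter_upwards [hg, hk] with n h1 h2; rw [h1, h2]; rfl⟩
  · obtain ⟨g, hg⟩ := Filter.Eventually.choice h
    obtain ⟨k, hk⟩ := rep_surj g
    exact ⟨.T k, by filter_upwards [hg, hk] with n h1 h2; rw [h1, h2]; rfl⟩
  · obtain ⟨g, hg⟩ := Filter.Eventually.choice h
    obtain ⟨k, hk⟩ := repI_surj g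
    exact ⟨.M k, by filter_upwards [hg, hk] with n h1 h2; rw [h1, h2]; rfl⟩
  · exact ⟨.E, h⟩

theorem Φ_bij : Function.Bijective Φ := by
  constructor
  · intro e e' h
    exact lift_inj.mp ((Quotient.eq (r := (U : Filter ℕ).productSetoid (fun n => Alg σ₀ n))).mp h)
  · intro p
    induction p using Quotient.inductionOn' with
    | h f =>
      obtain ⟨e, he⟩ := lift_surj f
      refine ⟨e, (Quotient.eq (r := (U : Filter ℕ).productSetoid (fun n => Alg σ₀ n))).mpr ?_⟩
      filter_upwards [he] with n h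
      exact h.symm

theorem lift_mul (a b : El NI) :
    ∀ᶠ n in (U : Filter ℕ), mulE σ₀ n (lift a n) (lift b n) = lift (mulE σU NU a b) n := by
  have hne : ∀ {k l : Option NI}, k ≠ l → ∀ᶠ n in (U : Filter ℕ), rep k n ≠ rep l n := by
    intro k l h
    exact Ultrafilter.eventually_not.mpr fun h' => h (rep_eq.mp h')
  rcases a with (_|i)|k|k|k|k|i|_ <;> rcases b with l|l|l|l|l|j|_ <;>
    try exact Eventually.of_forall fun n => rfl
  · by_cases h : none = l
    · subst h
      filter_upwards [repI_NU] with n hn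
      simp [lift, mulE, rep, hn]
    · filter_upwards [hne h] with n hn
      have hn : none ≠ rep l n := hn
      show mulE σ₀ n (El.A none) (El.B (rep l n)) = _
      simp [lift, mulE, h, hn]
  · by_cases h : some i = l
    · subst h
      refine Eventually.of_forall fun n => ?_
      simp [lift, mulE, rep]
    · filter_upwards [hne h] with n hn
      have hn : some (repI i n) ≠ rep l n := hn
      show mulE σ₀ n (El.A (some (repI i n))) (El.B (rep l n)) = _
      simp [lift, mulE, h, hn]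
  · by_cases h : k = l
    · subst h
      refine Eventually.of_forall fun n => ?_
      simp [lift, mulE]
    · filter_upwards [hne h] with n hn
      simp [lift, mulE, h, hn]
  · by_cases h : k = some (σU l)
    · subst h
      filter_upwards [repI_σU l] with n hn
      simp [lift, mulE, rep, hn]
    · filter_upwards [hne h, repI_σU l] with n hn hn'
      have hn : rep k n ≠ some (repI (σU l) n) := hn
      rw [hn'] at hn
      simp [lift, mulE, h, hn]

theorem lift_Mt (a b c : El NI) :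
    (∀ᶠ n in (U : Filter ℕ), MtE (lift a n) (lift b n) (lift c n)) ↔ MtE a b c := by
  have kE : ∀ e : El NI, (∀ᶠ n in (U : Filter ℕ), lift e n = .E) ↔ e = .E := fun e =>
    lift_inj (e' := .E)
  -- three families of elements with an index
  have hK : ∀ (f g h : Option ℕ → El ℕ) (f' g' h' : Option NI → El NI)
      (_ : ∀ k n, lift (f' k) n = f (rep k n)) (_ : ∀ k n, lift (g' k) n = g (rep k n))
      (_ : ∀ k n, lift (h' k) n = h (rep k n)),
      (∀ᶠ n in (U : Filter ℕ), ∃ k, lift a n = f k ∧ lift b n = g k ∧ lift c n = h k) ↔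
        ∃ k, a = f' k ∧ b = g' k ∧ c = h' k := by
    intro f g h f' g' h' hf hg hh
    constructor
    · intro H
      obtain ⟨κ, hκ⟩ := Filter.Eventually.choice H
      obtain ⟨k, hk⟩ := rep_surj κ
      refine ⟨k, ?_, ?_, ?_⟩
      · rw [← lift_inj]
        filter_upwards [hκ, hk] with n h1 h2
        rw [h1.1, hf, h2]
      · rw [← lift_inj]
        filter_upwards [hκ, hk] with n h1 h2
        rw [h1.2.1, hg, h2]
      · rw [← lift_inj]
        filter_upwards [hκ, hk] with n h1 h2
        rw [h1.2.2, hh, h2]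
    · rintro ⟨k, rfl, rfl, rfl⟩
      exact Eventually.of_forall fun n => ⟨rep k n, hf _ _, hg _ _, hh _ _⟩
  have hI : ∀ (f g h : ℕ → El ℕ) (f' g' h' : NI → El NI)
      (_ : ∀ k n, lift (f' k) n = f (repI k n)) (_ : ∀ k n, lift (g' k) n = g (repI k n))
      (_ : ∀ k n, lift (h' k) n = h (repI k n)),
      (∀ᶠ n in (U : Filter ℕ), ∃ k, lift a n = f k ∧ lift b n = g k ∧ lift c n = h k) ↔
        ∃ k, a = f' k ∧ b = g' k ∧ c = h' k := by
    intro f g h f' g' h' hf hg hh
    constructor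
    · intro H
      obtain ⟨κ, hκ⟩ := Filter.Eventually.choice H
      obtain ⟨k, hk⟩ := repI_surj κ
      refine ⟨k, ?_, ?_, ?_⟩
      · rw [← lift_inj]
        filter_upwards [hκ, hk] with n h1 h2
        rw [h1.1, hf, h2]
      · rw [← lift_inj]
        filter_upwards [hκ, hk] with n h1 h2
        rw [h1.2.1, hg, h2]
      · rw [← lift_inj]
        filter_upwards [hκ, hk] with n h1 h2
        rw [h1.2.2, hh, h2]
    · rintro ⟨k, rfl, rfl, rfl⟩
      exact Eventually.of_forall fun n => ⟨repI k n, hf _ _, hg _ _, hh _ _⟩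
  unfold MtE
  simp only [Ultrafilter.eventually_or]
  refine or_congr ?_ (or_congr ?_ (or_congr ?_ (or_congr ?_ (or_congr ?_ (or_congr ?_
    (or_congr ?_ (or_congr ?_ (or_congr ?_ (or_congr ?_ ?_)))))))))
  · rw [eventually_and, lift_inj, lift_inj]
  · rw [eventually_and, kE, lift_inj]
  · rw [eventually_and, kE, lift_inj]
  · exact hK _ _ _ .A .C .A (fun _ _ => rfl) (fun _ _ => rfl) (fun _ _ => rfl)
  · exact hK _ _ _ .C .A .A (fun _ _ => rfl) (fun _ _ => rfl) (fun _ _ => rfl)
  · exact hI _ (fun _ => .T none) _ .M (fun _ => .T none) .M (fun _ _ => rfl) (fun _ _ => rfl)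
      (fun _ _ => rfl)
  · exact hI (fun _ => .T none) _ _ (fun _ => .T none) .M .M (fun _ _ => rfl) (fun _ _ => rfl)
      (fun _ _ => rfl)
  · exact hI _ (fun i => .T (some i)) _ .M (fun i => .T (some i)) .M (fun _ _ => rfl)
      (fun _ _ => rfl) (fun _ _ => rfl)
  · exact hI (fun i => .T (some i)) _ _ (fun i => .T (some i)) .M .M (fun _ _ => rfl)
      (fun _ _ => rfl) (fun _ _ => rfl)
  · exact hI (fun _ => .T none) (fun i => .T (some i)) _ (fun _ => .T none)
      (fun i => .T (some i)) .M (fun _ _ => rfl) (fun _ _ => rfl) (fun _ _ => rfl)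
  · exact hI (fun i => .T (some i)) (fun _ => .T none) _ (fun i => .T (some i))
      (fun _ => .T none) .M (fun _ _ => rfl) (fun _ _ => rfl) (fun _ _ => rfl)

theorem Φ_mul (a b : El NI) : mul (Φ a) (Φ b) = Φ (mulE σU NU a b) := by
  have h := Language.Ultraproduct.funMap_cast (M := fun n => Alg σ₀ n) (u := U) (L := L) Fn.comp
    ![lift a, lift b]
  have h1 : (fun i => ((![lift a, lift b] : Fin 2 → ∀ n, Alg σ₀ n) i : P)) = ![Φ a, Φ b] := by
    ext i
    fin_cases i <;> rfl
  rw [h1] at h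
  refine Eq.trans h ?_
  refine (Quotient.eq (r := (U : Filter ℕ).productSetoid (fun n => Alg σ₀ n))).mpr ?_
  exact lift_mul a b

theorem Φ_Mt (a b c : El NI) : Mt (Φ a) (Φ b) (Φ c) ↔ MtE a b c := by
  rw [← lift_Mt]
  have h := @Language.relMap_quotient_mk' L _ ((U : Filter ℕ).productSetoid (fun n => Alg σ₀ n))
      (Language.Ultraproduct.setoidPrestructure (fun n => Alg σ₀ n) U) 3 Rl.meet
      (![lift a, lift b, lift c])
  have h1 : (fun i => (@Quotient.mk _ ((U : Filter ℕ).productSetoid (fun n => Alg σ₀ n))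
      ((![lift a, lift b, lift c] : Fin 3 → ∀ n, Alg σ₀ n) i) : P)) = ![Φ a, Φ b, Φ c] := by
    ext i
    fin_cases i <;> rfl
  refine Iff.trans ?_ (h.trans ?_)
  · unfold Mt
    rw [← h1]
    exact Iff.rfl
  · exact Iff.rfl

theorem rep_P : Representable P := by
  apply representable_of σU NU Φ Φ_bij Φ_mul Φ_Mt {i | ∃ c : ℕ, i = cl fun _ => c}
  · exact ⟨0, rfl⟩
  · rintro i ⟨c, rfl⟩
    refine ⟨c + 1, ?_⟩
    rw [σU, cl_eq]
    have := cl_eq.mp (cl_repI (cl fun _ => c))
    filter_upwards [this] with n hn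
    simp [rep, hn, σ₀]
  · rintro ⟨c, hc⟩
    rw [NU, cl_eq] at hc
    have h1 : {n : ℕ | n = c}.Finite := Set.finite_singleton c
    exact h1.notMem_hyperfilter hc

/-- **The class of representable `(⊓, ;)`-structures is not finitely axiomatisable.** -/
theorem result : ¬ FinAx := by
  rintro ⟨Ψ, hΨ⟩
  have hP : IsStr P := by
    obtain ⟨X, θ, hinj, -, h, -⟩ := (representable_iff _).mp rep_P
    intro a b c c' h1 h2
    apply hinj
    rw [((h a b c).mp h1).2, ((h a b c').mp h2).2]
  have h1 := (hΨ P hP).mpr rep_P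
  have h2 : ∀ ψ ∈ Ψ, ∀ᶠ n in (U : Filter ℕ), Alg σ₀ n ⊨ ψ := by
    intro ψ hψ
    have : ∀ n : ℕ, Nonempty (Alg σ₀ n) := fun n => ⟨(El.E : El ℕ)⟩
    exact (Language.Ultraproduct.sentence_realize ψ).mp (h1 ψ hψ)
  have h3 : ∀ᶠ n in (U : Filter ℕ), ∀ ψ ∈ Ψ, Alg σ₀ n ⊨ ψ :=
    (Filter.eventually_all_finset Ψ).mpr h2
  obtain ⟨n, hn⟩ := h3.exists
  exact not_rep n ((hΨ (Alg σ₀ n) (isStr n)).mp hn)

end Pool.Agent.Results.MP_ef6db9_lc.NotFinitelyAxiomatisable
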